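import Pool.Agent.H3.Gendo.Main

/-!
# A gendo-symmetric algebra with `o_k(A) = ∞` for every `k`

Negative answer to Q2 of MP_b2fb47_al, over every field of characteristic zero.

Let `L` be a finite-dimensional algebra and let `T(L) = L ⋉ Hom_K(L, K)` be its trivial extension,
which is symmetric.  Put `A = End_{T(L)}(T(L) ⊕ L)`, a gendo-symmetric algebra, and let `f` be the
idempotent of `A` that projects onto `L`.  Then `fAf = L` and `fA` is a free left `L`-module of
rank two, so `X ↦ X ⊗_L fA` is an exact and fully faithful functor from right `L`-modules to right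
`A`-modules, left adjoint to the exact functor `Z ↦ Zf`, and
`Ext^i_A(X ⊗ fA, Y ⊗ fA) = Ext^i_L(X, Y)` for all `i`.  So `o_k(L) ≤ o_k(A)` for all `k`.
We apply this to an algebra `L` that has an infinite family of pairwise non-isomorphic bricks with
`Ext^i(X_m, X_n) = 0` for all `m, n` and all `i ≥ 1`.
-/

set_option autoImplicit false

namespace Pool.Agent.Results.MP_b2fb47_al.GendoSymmetric

open CategoryTheory CategoryTheory.Abelian Pool.Agent.H3.Gendo

universe u

/-- Over every field `K` of characteristic zero there is a gendo-symmetric (finite-dimensional,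
connected, non-semisimple) `K`-algebra `A` with `o_k(A) = ∞` for every `k ≥ 1`; indeed `A` has
finitely generated right modules `M` with `Ext^i(M, M) = 0` for all `i ≥ 1` and with arbitrarily
many pairwise non-isomorphic indecomposable direct summands. -/
theorem result (K : Type u) [Field K] [CharZero K] :
    ∃ (A : Type u) (_ : Ring A) (_ : Algebra K A),
      IsAlg K A ∧ IsGendoSymm K A ∧
      (∀ k : ℕ, 1 ≤ k → o A k = ⊤) ∧
      (∀ N : ℕ, ∃ M : ModuleCat.{u} Aᵐᵒᵖ, Module.Finite Aᵐᵒᵖ M ∧
        (∀ i : ℕ, 1 ≤ i → Subsingleton (Ext M M i)) ∧ (N : ℕ∞) ≤ size M) :=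
  ⟨Ctr K, inferInstance, inferInstance,
    ea_isAlg K _ (W450.Rig.alg_connected K).2, ea_gendo K _ (W450.Rig.alg_connected K).2,
    fun k _ => (ctr_unbounded K).2 k, (ctr_unbounded K).1⟩

end Pool.Agent.Results.MP_b2fb47_al.GendoSymmetric
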